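import Mathlib
import Pool.Agent.H.MP_d44d58_nt.E

set_option autoImplicit false

namespace Pool.Agent.Results.MP_d44d58_nt.Q1

open Matrix Polynomial Pool.Agent.H4489 Pool.Agent.H5124 Pool.Agent.Hd44d

/-- the matrix `M(m, n)` -/
def M (m n : ℤ) : Matrix (Fin 3) (Fin 3) ℤ := !![0, 1, n + 1; 1, 1, m + n; 0, 2, 2 * n + 1]

/-- characteristic polynomial irreducible over `ℚ`, with one real root and two non-real complex
conjugate roots -/
def IsNRS (A : Matrix (Fin 3) (Fin 3) ℤ) : Prop :=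
  Irreducible (A.charpoly.map (Int.castRingHom ℚ)) ∧
    ∃ (ρ : ℝ) (z : ℂ), z.im ≠ 0 ∧
      (A.charpoly.map (Int.castRingHom ℂ)).roots = {(ρ : ℂ), z, (starRingEnd ℂ) z}

/-- `Δ_A(v) = |det (v, A v, A ^ 2 v)|` -/
def Delta (A : Matrix (Fin 3) (Fin 3) ℤ) (v : Fin 3 → ℤ) : ℤ :=
  |(Matrix.of ![v, A *ᵥ v, (A ^ 2) *ᵥ v]).det|

/-- `Δ_A` attains its minimum over nonzero integer vectors at `e₁` -/
def Reduced (A : Matrix (Fin 3) (Fin 3) ℤ) : Prop :=
  ∀ v : Fin 3 → ℤ, v ≠ 0 → Delta A ![1, 0, 0] ≤ Delta A v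

lemma cp (m n : ℤ) : (M m n).charpoly = cub ℤ (2 * n + 2) (-2 * m) := by
  rw [cp_eq (M m n) (by simp [M, det_fin_three]; ring)]
  congr 1
  · simp [ta, M]; ring
  · simp [tb, M]; ring

lemma Delta_eq (m n x y z : ℤ) : 4 * Delta (M m n) ![x, y, z] =
    |Nf (2 * n + 2) (-2 * m) (2 * x - (1 - 2 * m) * z) (2 * y + (2 * n + 1) * z) z| := by
  have : (4 : ℤ) = |4| := rfl
  rw [Delta, this, ← abs_mul]
  congr 1
  simp [M, det_fin_three, pow_two, mulVec, dotProduct, Fin.sum_univ_three, Nf]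
  ring

def W : List (ℤ × ℤ × ℤ × ℤ × ℤ) :=
  [(-2, -3, 4, 3, 1), (2, 1, 0, -1, 1), (-1, -2, 2, 2, 1), (1, 0, 0, 0, 1), (-1, -1, 2, 1, 1),
    (0, 0, 1, 0, 1), (-2, 0, 2, 0, 1), (-1, 1, 1, -1, 1), (-3, 1, 2, -1, 1), (-2, 2, 1, -2, 1),
    (-5, 2, 1, -1, 1), (-3, 4, 6, -13, 3)]

def S : Finset (ℤ × ℤ) := (W.map fun t => (t.1, t.2.1)).toFinset

lemma W_ok : ∀ t ∈ W, 0 < Dl (2 * t.2.1 + 2) (-2 * t.1) ∧ 2 * t.2.1 + 2 ≠ -2 * t.1 ∧
    2 * t.2.1 + 2 + -2 * t.1 + 2 ≠ 0 ∧ t.2.2.2.2 ≠ 0 ∧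
    |Nf (2 * t.2.1 + 2) (-2 * t.1) (2 * t.2.2.1 - (1 - 2 * t.1) * t.2.2.2.2)
      (2 * t.2.2.2.1 + (2 * t.2.1 + 1) * t.2.2.2.2) t.2.2.2.2| = 4 := by decide +kernel

lemma Delta_e (m n : ℤ) : Delta (M m n) ![1, 0, 0] = 2 := by
  have := Delta_eq m n 1 0 0
  simp [Nf] at this
  omega

lemma key (m n : ℤ) (h : (2 * n + 2, -2 * m) ∈ L4 ∨ (-2 * m, 2 * n + 2) ∈ L4) : (m, n) ∈ S := by
  have h2 : ∀ t ∈ L4, (-(t.2 / 2), (t.1 - 2) / 2) ∈ S ∧ (-(t.1 / 2), (t.2 - 2) / 2) ∈ S := by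
    decide +kernel
  have hm : -(-2 * m / 2) = m := by omega
  have hn : (2 * n + 2 - 2) / 2 = n := by omega
  rcases h with h | h
  · have := (h2 _ h).1
    simp only at this
    rwa [hm, hn] at this
  · have := (h2 _ h).2
    simp only at this
    rwa [hm, hn] at this

theorem result :
    {p : ℤ × ℤ | IsNRS (M p.1 p.2) ∧ ¬ Reduced (M p.1 p.2)}.ncard = 12 := by
  have hS : {p : ℤ × ℤ | IsNRS (M p.1 p.2) ∧ ¬ Reduced (M p.1 p.2)} = (S : Set (ℤ × ℤ)) := by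
    ext ⟨m, n⟩
    simp only [Set.mem_setOf_eq, IsNRS, cp, cub_map, Finset.mem_coe]
    constructor
    · rintro ⟨⟨hi, ρ, z, hzi, hz⟩, hR⟩
      obtain ⟨ρ, s, τ, h⟩ := setup_of_root _ _ z hzi (by rw [hz]; simp)
      unfold Reduced at hR
      push Not at hR
      obtain ⟨v, hv, hlt⟩ := hR
      obtain ⟨x, y, z, rfl⟩ : ∃ x y z, v = ![x, y, z] :=
        ⟨v 0, v 1, v 2, by ext i; fin_cases i <;> rfl⟩
      rw [Delta_e] at hlt
      have e := Delta_eq m n x y z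
      have h0 : Nf (2 * n + 2) (-2 * m) (2 * x - (1 - 2 * m) * z) (2 * y + (2 * n + 1) * z) z
          ≠ 0 := by
        intro h0
        obtain ⟨h1, h2, h3⟩ := Nf_ne h hi _ _ _ h0
        subst h3
        apply hv
        have hx : x = 0 := by omega
        have hy : y = 0 := by omega
        subst hx hy
        ext i; fin_cases i <;> rfl
      have hz : z % 2 = 1 := by
        by_contra hz
        obtain ⟨k, rfl⟩ : ∃ k, z = 2 * k := ⟨z / 2, by omega⟩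
        have e2 : Nf (2 * n + 2) (-2 * m) (2 * x - (1 - 2 * m) * (2 * k))
            (2 * y + (2 * n + 1) * (2 * k)) (2 * k) =
            8 * Nf (2 * n + 2) (-2 * m) (x - (1 - 2 * m) * k) (y + (2 * n + 1) * k) k := by
          unfold Nf; ring
        rw [e2] at e h0
        rw [abs_mul] at e
        have := Int.one_le_abs (right_ne_zero_of_mul h0)
        have h8 : |(8 : ℤ)| = 8 := rfl
        rw [h8] at e
        linarith
      have hS4 : S4 (2 * n + 2) (-2 * m) := by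
        refine ⟨_, _, _, ⟨?_, ?_, hz⟩, h0, by omega⟩
        · have : 2 * x - (1 - 2 * m) * z = 2 * (x + m * z) - z := by ring
          rw [this]; omega
        · have : 2 * y + (2 * n + 1) * z = 2 * (y + n * z) + z := by ring
          rw [this]; omega
      exact key m n (thmC h (ne_of_irr hi) (by omega) (by omega) hS4)
    · intro hm
      simp only [S, List.mem_toFinset, List.mem_map, Prod.mk.injEq] at hm
      obtain ⟨⟨m', n', x, y, z⟩, ht, rfl, rfl⟩ := hm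
      obtain ⟨h1, h2, h3, h4, h5⟩ := W_ok _ ht
      refine ⟨⟨cub_irr _ _ h2 h3, roots_of_Dl _ _ h1⟩, fun hR => ?_⟩
      have := hR ![x, y, z] (fun h => h4 (congrFun h 2))
      rw [Delta_e] at this
      have e := Delta_eq m' n' x y z
      simp only at h5
      rw [h5] at e
      simp only at this
      omega
  rw [hS, Set.ncard_coe_finset]
  decide +kernel

end Pool.Agent.Results.MP_d44d58_nt.Q1
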